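import Pool.Agent.Q133.FT.Final

/-!
# Flows on Euclidean space whose orbit space is a manifold with torsion in its homology

The definitions `IsFlow`, `OrbitSpace` (and `OrbitSpace.mk`, the quotient map) are in
`Pool.Agent.Q133.FT.Defs`.
-/

set_option autoImplicit false

open Set CategoryTheory AlgebraicTopology
open scoped ContDiff
open Pool.Agent.Q133.FT (IsFlow OrbitSpace)

namespace Pool.Agent.Results.MP_c8cff9_gt.TorsionInEveryDegree

/-- **Affirmative answer to Q1.** For all `k ≥ 3`, `n ≥ k + 3` and `d ≥ 1` there is a smooth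
complete flow on `ℝ^(n+1)` whose orbit space is a (Hausdorff, second countable) topological
`n`-manifold, indeed homeomorphic to an open subset `U` of `ℝⁿ` by a homeomorphism for which the
quotient map `ℝ^(n+1) → U` is smooth, and such that its `k`-th singular homology group with
integer coefficients contains an element of order exactly `d`. -/
theorem result (n k d : ℕ) (hk : 3 ≤ k) (hn : k + 3 ≤ n) (hd : 1 ≤ d) :
    ∃ (Φ : ℝ → EuclideanSpace ℝ (Fin (n + 1)) → EuclideanSpace ℝ (Fin (n + 1))) (h : IsFlow Φ),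
      T2Space (OrbitSpace h) ∧ SecondCountableTopology (OrbitSpace h) ∧
      Nonempty (ChartedSpace (EuclideanSpace ℝ (Fin n)) (OrbitSpace h)) ∧
      (∃ (U : Set (EuclideanSpace ℝ (Fin n))) (e : OrbitSpace h ≃ₜ U), IsOpen U ∧
        ContDiff ℝ ∞ (fun x => (e (OrbitSpace.mk h x) : EuclideanSpace ℝ (Fin n)))) ∧
      ∃ x : ((((singularHomologyFunctor (ModuleCat.{0} ℤ) k).obj (ModuleCat.of ℤ ℤ)).obj
        (TopCat.of (OrbitSpace h)) : ModuleCat.{0} ℤ) : Type), addOrderOf x = d := by
  obtain ⟨Φ, h, U, e, hU, he, ho⟩ := Pool.Agent.Q133.FT.exists_flow n k d hk hn hd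
  have h2 : T2Space (OrbitSpace h) := e.isEmbedding.t2Space
  have h3 : SecondCountableTopology (OrbitSpace h) := e.isEmbedding.secondCountableTopology
  have hne : Nonempty (OrbitSpace h) := ⟨OrbitSpace.mk h 0⟩
  have hemb : Topology.IsOpenEmbedding
      (fun x : OrbitSpace h => (e x : EuclideanSpace ℝ (Fin n))) :=
    hU.isOpenEmbedding_subtypeVal.comp e.isOpenEmbedding
  exact ⟨Φ, h, h2, h3, ⟨hemb.singletonChartedSpace⟩, ⟨U, e, hU, he⟩,
    Pool.Agent.Q133.FT.exists_addOrderOf (by omega) ho⟩

end Pool.Agent.Results.MP_c8cff9_gt.TorsionInEveryDegree
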